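import Mathlib

set_option autoImplicit false

/-!
# Double covers of projective spaces: transcendence degrees and spans (helper25)
-/

open Module Cardinal

namespace Pool.Agent.V7H25.HC

universe u v

/-- the ratios of the elements of a space of functions by `u` -/
def rat {F : Type u} {K : Type v} [Field F] [Field K] [Algebra F K] (U : Submodule F K) (u : K) :
    Set K := (fun a => a / u) '' (U : Set K)

section

variable {F : Type u} {K : Type v} [Field F] [Field K] [Algebra F K]

lemma exists_compl {V W : Submodule F K} (h : V ≤ W) [FiniteDimensional F W] :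
    ∃ C ≤ W, V ⊔ C = W ∧ finrank F V + finrank F C = finrank F W := by
  obtain ⟨C₀, hC₀⟩ := exists_isCompl V
  have hV : FiniteDimensional F V := Submodule.finiteDimensional_of_le h
  have hC : FiniteDimensional F (W ⊓ C₀ : Submodule F K) :=
    Submodule.finiteDimensional_of_le inf_le_left
  have h1 : V ⊔ (W ⊓ C₀) = W := by
    rw [inf_comm, ← sup_inf_assoc_of_le C₀ h, hC₀.sup_eq_top, top_inf_eq]
  have h2 : V ⊓ (W ⊓ C₀) = ⊥ := by
    rw [← inf_assoc, inf_eq_left.2 h, hC₀.inf_eq_bot]
  refine ⟨W ⊓ C₀, inf_le_left, h1, ?_⟩
  have h3 := Submodule.finrank_sup_add_finrank_inf_eq V (W ⊓ C₀)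
  rw [h1, h2, finrank_bot] at h3
  omega

lemma isAlgebraic_mono {A B : IntermediateField F K} (h : A ≤ B) {z : K} (hz : IsAlgebraic A z) :
    IsAlgebraic B z := by
  let _ := (IntermediateField.inclusion h).toAlgebra
  have : IsScalarTower A B K := IsScalarTower.of_algebraMap_eq fun _ => rfl
  exact hz.tower_top B

/-- If `K` is algebraic over the field generated by the ratios of a space of dimension `m + 1`,
then the transcendence degree is at most `m`. -/
lemma trdeg_add_one_le (W : Submodule F K) [FiniteDimensional F W] {u : K} (hu : u ∈ W)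
    (hu0 : u ≠ 0) (h : ∀ z : K, IsAlgebraic (IntermediateField.adjoin F (rat W u)) z) :
    Algebra.trdeg F K + 1 ≤ (finrank F W : Cardinal) := by
  classical
  -- a complement of the line spanned by `u`
  obtain ⟨C, hCW, hsup, hrk⟩ := exists_compl (V := F ∙ u) (W := W)
    ((Submodule.span_singleton_le_iff_mem _ _).2 hu)
  rw [finrank_span_singleton hu0] at hrk
  have hC : FiniteDimensional F C := Submodule.finiteDimensional_of_le hCW
  let b := Module.finBasis F C
  let s : Set K := Set.range (fun i => ((b i : C) : K) / u)
  have hs : ∀ a ∈ W, a / u ∈ IntermediateField.adjoin F s := by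
    intro a ha
    rw [← hsup] at ha
    obtain ⟨p, hp, q, hq, rfl⟩ := Submodule.mem_sup.1 ha
    obtain ⟨c, rfl⟩ := Submodule.mem_span_singleton.1 hp
    have h4 : q / u ∈ IntermediateField.adjoin F s := by
      have h5 : (⟨q, hq⟩ : C) = ∑ i, b.repr ⟨q, hq⟩ i • b i := (b.sum_repr _).symm
      have h6 : q = ∑ i, algebraMap F K (b.repr ⟨q, hq⟩ i) * ((b i : C) : K) := by
        have := congrArg (fun z : C => (z : K)) h5
        simpa only [Submodule.coe_sum, Submodule.coe_smul, Algebra.smul_def] using this
      rw [h6, Finset.sum_div]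
      refine sum_mem fun i _ => ?_
      rw [mul_div_assoc]
      exact mul_mem (IntermediateField.algebraMap_mem _ _)
        (IntermediateField.subset_adjoin _ _ ⟨i, rfl⟩)
    rw [add_div, Algebra.smul_def, mul_div_assoc, div_self hu0, mul_one]
    exact add_mem (IntermediateField.algebraMap_mem _ _) h4
  have hle : IntermediateField.adjoin F (rat W u) ≤ IntermediateField.adjoin F s := by
    rw [IntermediateField.adjoin_le_iff]
    rintro _ ⟨a, ha, rfl⟩
    exact hs a ha
  have halg : Algebra.IsAlgebraic (IntermediateField.adjoin F s) K :=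
    ⟨fun z => isAlgebraic_mono hle (h z)⟩
  have halg' : Algebra.IsAlgebraic (Algebra.adjoin F s) K :=
    IntermediateField.isAlgebraic_adjoin_iff_top.1 halg
  have h7 := Algebra.IsAlgebraic.trdeg_le_cardinalMk F s
  have h8 : #s ≤ (finrank F C : Cardinal) := by
    have := Cardinal.mk_range_le_lift (f := fun i : Fin (finrank F C) => ((b i : C) : K) / u)
    simpa using this
  rw [← hrk]
  push_cast
  rw [add_comm]
  exact add_le_add le_rfl (h7.trans h8)

/-- the extension of scalars of a space of functions -/
def ext (E : IntermediateField F K) (W : Submodule F K) : Submodule E K :=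
  Submodule.span E (W : Set K)

lemma mem_ext {E : IntermediateField F K} {W : Submodule F K} {a : K} (h : a ∈ W) :
    a ∈ ext E W := Submodule.subset_span h

lemma ext_mono {E : IntermediateField F K} {V W : Submodule F K} (h : V ≤ W) :
    ext E V ≤ ext E W := Submodule.span_mono h

lemma ext_sup (E : IntermediateField F K) (V W : Submodule F K) :
    ext E (V ⊔ W) = ext E V ⊔ ext E W := by
  apply le_antisymm
  · refine Submodule.span_le.2 fun a ha => ?_
    obtain ⟨p, hp, q, hq, rfl⟩ := Submodule.mem_sup.1 ha
    exact add_mem (Submodule.mem_sup_left (mem_ext hp)) (Submodule.mem_sup_right (mem_ext hq))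
  · exact sup_le (ext_mono le_sup_left) (ext_mono le_sup_right)

lemma ext_eq_span_basis (E : IntermediateField F K) (W : Submodule F K) [FiniteDimensional F W] :
    ext E W = Submodule.span E (Set.range fun i => ((Module.finBasis F W i : W) : K)) := by
  apply le_antisymm
  · refine Submodule.span_le.2 fun a ha => ?_
    have h5 : (⟨a, ha⟩ : W) = ∑ i, (finBasis F W).repr ⟨a, ha⟩ i • finBasis F W i :=
      ((finBasis F W).sum_repr _).symm
    have h6 : a = ∑ i, algebraMap F K ((finBasis F W).repr ⟨a, ha⟩ i) *
        ((finBasis F W i : W) : K) := by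
      have := congrArg (fun z : W => (z : K)) h5
      simpa only [Submodule.coe_sum, Submodule.coe_smul, Algebra.smul_def] using this
    change a ∈ _
    rw [h6]
    refine sum_mem fun i _ => ?_
    have h7 : algebraMap F K ((finBasis F W).repr ⟨a, ha⟩ i) * ((finBasis F W i : W) : K) =
        (algebraMap F E ((finBasis F W).repr ⟨a, ha⟩ i)) • ((finBasis F W i : W) : K) := by
      rw [Algebra.smul_def, ← IsScalarTower.algebraMap_apply]
    rw [h7]
    exact Submodule.smul_mem _ _ (Submodule.subset_span ⟨i, rfl⟩)
  · refine Submodule.span_le.2 ?_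
    rintro _ ⟨i, rfl⟩
    exact mem_ext (finBasis F W i).2

instance ext_finite (E : IntermediateField F K) (W : Submodule F K) [FiniteDimensional F W] :
    FiniteDimensional E (ext E W) := by
  rw [ext_eq_span_basis]
  exact FiniteDimensional.span_of_finite E (Set.finite_range _)

lemma finrank_ext_le (E : IntermediateField F K) (W : Submodule F K) [FiniteDimensional F W] :
    finrank E (ext E W) ≤ finrank F W := by
  rw [ext_eq_span_basis]
  have := finrank_range_le_card (R := E) (fun i => ((finBasis F W i : W) : K))
  simpa [Set.finrank] using this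

/-- `U` is the space of linear forms of a projective space over `F` of dimension `n`, and `K` is
algebraic over the function field of this projective space. -/
structure Base {F : Type u} {K : Type v} [Field F] [Field K] [Algebra F K] (n : ℕ)
    (U : Submodule F K) : Prop where
  fr : finrank F U = n + 1
  tr : Algebra.trdeg F K = n
  alg : ∀ u ∈ U, u ≠ 0 → ∀ z : K, IsAlgebraic (IntermediateField.adjoin F (rat U u)) z

lemma Base.fin {n : ℕ} {U : Submodule F K} (h : Base n U) : FiniteDimensional F U :=
  FiniteDimensional.of_finrank_pos (by rw [h.fr]; omega)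

lemma trdeg_adjoin_simple_le (a : K) :
    Algebra.trdeg F (IntermediateField.adjoin F {a}) ≤ 1 := by
  set g : IntermediateField.adjoin F {a} := ⟨a, IntermediateField.subset_adjoin _ _ rfl⟩ with hg
  have h1 : IntermediateField.adjoin F {g} = ⊤ := by
    apply IntermediateField.lift_injective
    rw [IntermediateField.lift_adjoin_simple, IntermediateField.lift_top]
  have h2 : Algebra.IsAlgebraic (IntermediateField.adjoin F {g})
      (IntermediateField.adjoin F {a}) := by
    rw [h1]
    refine ⟨fun z => ?_⟩
    exact isAlgebraic_algebraMap (⟨z, trivial⟩ :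
      (⊤ : IntermediateField F (IntermediateField.adjoin F {a})))
  have h3 : Algebra.IsAlgebraic (Algebra.adjoin F {g}) (IntermediateField.adjoin F {a}) :=
    IntermediateField.isAlgebraic_adjoin_iff_top.1 h2
  have h4 := Algebra.IsAlgebraic.trdeg_le_cardinalMk F {g}
  simpa using h4

/-- going to the pencil: elements algebraic over the ratios -/
lemma alg_ext {U : Submodule F K} {q : K} (hq : q ∈ U) (hq0 : q ≠ 0)
    (halg : ∀ z : K, IsAlgebraic (IntermediateField.adjoin F (rat U q)) z)
    (E : IntermediateField F K) {u : K} (hu0 : u ≠ 0) (z : K) :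
    IsAlgebraic (IntermediateField.adjoin E (rat (ext E U) u)) z := by
  have hle : IntermediateField.adjoin F (rat U q) ≤
      (IntermediateField.adjoin E (rat (ext E U) u)).restrictScalars F := by
    rw [IntermediateField.adjoin_le_iff]
    rintro _ ⟨a, ha, rfl⟩
    have h1 : a / u ∈ IntermediateField.adjoin E (rat (ext E U) u) :=
      IntermediateField.subset_adjoin _ _ ⟨a, mem_ext ha, rfl⟩
    have h2 : q / u ∈ IntermediateField.adjoin E (rat (ext E U) u) :=
      IntermediateField.subset_adjoin _ _ ⟨q, mem_ext hq, rfl⟩
    have h3 : a / q = (a / u) / (q / u) := by field_simp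
    change a / q ∈ IntermediateField.adjoin E (rat (ext E U) u)
    rw [h3]
    exact div_mem h1 h2
  exact isAlgebraic_mono hle (halg z)

/-- the pencil relation bounds the dimension of the extended space -/
lemma finrank_ext_pencil {U : Submodule F K} [FiniteDimensional F U] {p q : K} (hp : p ∈ U)
    (hq : q ∈ U) (hq0 : q ≠ 0) (hpq : p ∉ F ∙ q) {E : IntermediateField F K}
    (hE : p / q ∈ E) : finrank E (ext E U) + 1 ≤ finrank F U := by
  -- the plane spanned by `p` and `q`
  have hle : (F ∙ p) ⊔ (F ∙ q) ≤ U :=
    sup_le ((Submodule.span_singleton_le_iff_mem _ _).2 hp)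
      ((Submodule.span_singleton_le_iff_mem _ _).2 hq)
  obtain ⟨C, hCU, hsup, hrk⟩ := exists_compl hle
  have hp0 : p ≠ 0 := fun h => hpq (by rw [h]; exact zero_mem _)
  have h2 : finrank F ((F ∙ p) ⊔ (F ∙ q) : Submodule F K) = 2 := by
    have h3 := Submodule.finrank_sup_add_finrank_inf_eq (F ∙ p) (F ∙ q)
    have h4 : (F ∙ p) ⊓ (F ∙ q) = ⊥ := by
      rw [eq_bot_iff]
      rintro x ⟨hx1, hx2⟩
      obtain ⟨a, rfl⟩ := Submodule.mem_span_singleton.1 hx1
      by_cases ha : a = 0
      · rw [ha, zero_smul]; exact zero_mem _
      · exfalso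
        apply hpq
        have := Submodule.smul_mem _ a⁻¹ hx2
        rwa [smul_smul, inv_mul_cancel₀ ha, one_smul] at this
    rw [h4, finrank_bot, finrank_span_singleton hp0, finrank_span_singleton hq0] at h3
    omega
  have h5 : ext E U = (E ∙ q) ⊔ ext E C := by
    rw [← hsup, ext_sup, ext_sup]
    congr 1
    apply le_antisymm
    · refine sup_le ?_ ?_
      · refine Submodule.span_le.2 fun a ha => ?_
        obtain ⟨c, rfl⟩ := Submodule.mem_span_singleton.1 ha
        refine Submodule.mem_span_singleton.2 ⟨algebraMap F E c * ⟨p / q, hE⟩, ?_⟩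
        rw [Algebra.smul_def, map_mul, ← IsScalarTower.algebraMap_apply, Algebra.smul_def]
        change algebraMap F K c * (p / q) * q = _
        field_simp
      · refine Submodule.span_le.2 fun a ha => ?_
        obtain ⟨c, rfl⟩ := Submodule.mem_span_singleton.1 ha
        refine Submodule.mem_span_singleton.2 ⟨algebraMap F E c, ?_⟩
        rw [Algebra.smul_def, ← IsScalarTower.algebraMap_apply, Algebra.smul_def]
    · exact le_sup_of_le_right ((Submodule.span_singleton_le_iff_mem _ _).2
        (mem_ext (Submodule.mem_span_singleton_self q)))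
  have hfC : FiniteDimensional F C := Submodule.finiteDimensional_of_le hCU
  have h6 := Submodule.finrank_add_le_finrank_add_finrank (E ∙ q) (ext E C)
  rw [← h5, finrank_span_singleton hq0] at h6
  have h7 := finrank_ext_le E C
  omega

/-- The step: the generic member of a pencil of hyperplanes. -/
lemma Base.step {n : ℕ} {U : Submodule F K} (h : Base n U) {p q : K} (hp : p ∈ U)
    (hq : q ∈ U) (hq0 : q ≠ 0) (hpq : p ∉ F ∙ q) :
    ∃ m, n = m + 1 ∧ Base m (ext (IntermediateField.adjoin F {p / q}) U) ∧
      Transcendental F (p / q) := by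
  have hfin := h.fin
  set E := IntermediateField.adjoin F {p / q} with hE
  have h1 := finrank_ext_pencil hp hq hq0 hpq (E := E) (IntermediateField.subset_adjoin _ _ rfl)
  rw [h.fr] at h1
  have h2 := trdeg_add_one_le (ext E U) (mem_ext hq) hq0
    (fun z => alg_ext hq hq0 (h.alg q hq hq0) E hq0 z)
  have h3 : Algebra.trdeg F E + Algebra.trdeg E K = Algebra.trdeg F K := trdeg_add_eq F E
  have h4 := trdeg_adjoin_simple_le (F := F) (p / q)
  rw [← hE] at h4
  rw [h.tr] at h3
  -- everything is a natural number
  have h5 : Algebra.trdeg E K ≤ ((finrank E (ext E U) : ℕ) : Cardinal) :=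
    le_trans (le_self_add) h2
  obtain ⟨t, ht⟩ := Cardinal.lt_aleph0.1 (lt_of_le_of_lt h5 (Cardinal.natCast_lt_aleph0))
  obtain ⟨e, he⟩ := Cardinal.lt_aleph0.1 (lt_of_le_of_lt h4 Cardinal.one_lt_aleph0)
  rw [ht] at h2 h3
  rw [he] at h3 h4
  have h6 : t + 1 ≤ finrank E (ext E U) := by exact_mod_cast h2
  have h7 : e + t = n := by exact_mod_cast h3
  have h8 : e ≤ 1 := by exact_mod_cast h4
  refine ⟨t, by omega, ⟨by omega, by rw [ht], fun u hu hu0 z =>
    alg_ext hq hq0 (h.alg q hq hq0) E hu0 z⟩, ?_⟩
  intro halg
  have h9 : Algebra.IsAlgebraic F E := by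
    rw [hE]
    exact IntermediateField.isAlgebraic_adjoin_simple halg.isIntegral
  have h10 : Algebra.trdeg F E = 0 := trdeg_eq_zero
  rw [h10] at he
  have : e = 0 := by exact_mod_cast he.symm
  omega

/-- Restricting a linear system to the generic member of a pencil: the dimension drops by at most
one. -/
lemma Base.finrank_le {n m : ℕ} {U : Submodule F K} (h : Base n U) {E : IntermediateField F K}
    (hE : finrank E (ext E U) = m + 1) (hnm : n = m + 1) {V : Submodule F K} (hV : V ≤ U) :
    finrank F V ≤ finrank E (ext E V) + 1 := by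
  have hfin := h.fin
  obtain ⟨C, hCU, hsup, hrk⟩ := exists_compl hV
  have hfC : FiniteDimensional F C := Submodule.finiteDimensional_of_le hCU
  have hfV : FiniteDimensional F V := Submodule.finiteDimensional_of_le hV
  have h1 := Submodule.finrank_add_le_finrank_add_finrank (ext E V) (ext E C)
  rw [← ext_sup, hsup, hE] at h1
  have h2 := finrank_ext_le E C
  rw [h.fr] at hrk
  omega

/-- If the dimension drops, then the axis of the pencil contains the base locus of the linear
system. -/
lemma Base.mem_of_finrank_lt {n m : ℕ} {U : Submodule F K} (h : Base n U) {p q : K} (hp : p ∈ U)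
    (hq : q ∈ U) (hq0 : q ≠ 0) (hpq : p ∉ F ∙ q) {E : IntermediateField F K} (hpE : p / q ∈ E)
    (hE : finrank E (ext E U) = m + 1) (hnm : n = m + 1) {V : Submodule F K} (hV : V ≤ U)
    (hlt : finrank E (ext E V) < finrank F V) : p ∈ V ∧ q ∈ V := by
  have hfin := h.fin
  have hfV : FiniteDimensional F V := Submodule.finiteDimensional_of_le hV
  have hp0 : p ≠ 0 := fun h => hpq (by rw [h]; exact zero_mem _)
  by_contra hcon
  -- the sum of `V` and the plane
  set P : Submodule F K := (F ∙ p) ⊔ (F ∙ q) with hP
  have hPU : P ≤ U := sup_le ((Submodule.span_singleton_le_iff_mem _ _).2 hp)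
      ((Submodule.span_singleton_le_iff_mem _ _).2 hq)
  have hfP : FiniteDimensional F P := Submodule.finiteDimensional_of_le hPU
  have hP2 : finrank F P = 2 := by
    have h3 := Submodule.finrank_sup_add_finrank_inf_eq (F ∙ p) (F ∙ q)
    have h4 : (F ∙ p) ⊓ (F ∙ q) = ⊥ := by
      rw [eq_bot_iff]
      rintro x ⟨hx1, hx2⟩
      obtain ⟨a, rfl⟩ := Submodule.mem_span_singleton.1 hx1
      by_cases ha : a = 0
      · rw [ha, zero_smul]; exact zero_mem _
      · exfalso
        apply hpq
        have := Submodule.smul_mem _ a⁻¹ hx2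
        rwa [smul_smul, inv_mul_cancel₀ ha, one_smul] at this
    rw [h4, finrank_bot, finrank_span_singleton hp0, finrank_span_singleton hq0] at h3
    omega
  have hsubU : V ⊔ P ≤ U := sup_le hV hPU
  have h1 := h.finrank_le hE hnm hsubU
  have h2 := Submodule.finrank_sup_add_finrank_inf_eq V P
  -- the extension of the plane is a line
  have h3 : ext E P = E ∙ q := by
    rw [hP, ext_sup]
    apply le_antisymm
    · refine sup_le ?_ ?_
      · refine Submodule.span_le.2 fun a ha => ?_
        obtain ⟨c, rfl⟩ := Submodule.mem_span_singleton.1 ha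
        refine Submodule.mem_span_singleton.2 ⟨algebraMap F E c * ⟨p / q, hpE⟩, ?_⟩
        rw [Algebra.smul_def, map_mul, ← IsScalarTower.algebraMap_apply, Algebra.smul_def]
        change algebraMap F K c * (p / q) * q = _
        field_simp
      · refine Submodule.span_le.2 fun a ha => ?_
        obtain ⟨c, rfl⟩ := Submodule.mem_span_singleton.1 ha
        refine Submodule.mem_span_singleton.2 ⟨algebraMap F E c, ?_⟩
        rw [Algebra.smul_def, ← IsScalarTower.algebraMap_apply, Algebra.smul_def]
    · exact le_sup_of_le_right ((Submodule.span_singleton_le_iff_mem _ _).2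
        (mem_ext (Submodule.mem_span_singleton_self q)))
  have hinf : finrank F (V ⊓ P : Submodule F K) < 2 := by
    by_contra hge
    push Not at hge
    have h4 : V ⊓ P = P := by
      apply Submodule.eq_of_le_of_finrank_le inf_le_right
      rw [hP2]
      exact hge
    apply hcon
    have h5 : P ≤ V := inf_eq_right.1 h4
    exact ⟨h5 (Submodule.mem_sup_left (Submodule.mem_span_singleton_self p)),
      h5 (Submodule.mem_sup_right (Submodule.mem_span_singleton_self q))⟩
  have h6 := Submodule.finrank_add_le_finrank_add_finrank (ext E V) (ext E P)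
  rw [← ext_sup, h3, finrank_span_singleton hq0] at h6
  rcases Nat.lt_or_ge 0 (finrank F (V ⊓ P : Submodule F K)) with hpos | hzero
  · -- the extension of `V` contains `q`
    have h7 : q ∈ ext E V := by
      obtain ⟨x, hx⟩ := Submodule.exists_mem_ne_zero_of_ne_bot (p := V ⊓ P) (by
        intro hbot
        rw [hbot, finrank_bot] at hpos
        exact lt_irrefl _ hpos)
      have h8 : x ∈ E ∙ q := by rw [← h3]; exact mem_ext hx.1.2
      obtain ⟨c, hc⟩ := Submodule.mem_span_singleton.1 h8
      have hc0 : c ≠ 0 := by
        rintro rfl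
        rw [zero_smul] at hc
        exact hx.2 hc.symm
      have h9 := Submodule.smul_mem (ext E V) c⁻¹ (mem_ext hx.1.1)
      rwa [← hc, smul_smul, inv_mul_cancel₀ hc0, one_smul] at h9
    have h8 : ext E (V ⊔ P) = ext E V := by
      rw [ext_sup, h3, sup_eq_left]
      exact (Submodule.span_singleton_le_iff_mem _ _).2 h7
    rw [h8] at h1
    omega
  · omega

end

end Pool.Agent.V7H25.HC
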