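import Pool.Agent.V7H25.HC.Basic

set_option autoImplicit false

/-!
# Double covers of projective spaces: the curve case and combination lemmas (helper25)
-/

open Module Cardinal

namespace Pool.Agent.V7H25.HC

universe u v

/-- `K` is over `L` the function field of a double cover `w² = Q(t)` of the line with `Q` of degree
at most four and not a constant times a square -/
def DC (L : Type u) (K : Type v) [Field L] [Field K] [Algebra L K] : Prop :=
  ∃ (t w : K) (Q : Polynomial L), Transcendental L t ∧ w ^ 2 = Polynomial.aeval t Q ∧
    Q.natDegree ≤ 4 ∧ (¬ ∃ (c : L) (R : Polynomial L), Q = .C c * R ^ 2) ∧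
    IntermediateField.adjoin L {t, w} = ⊤

/-- The elements algebraic over finitely many genus one fibrations are algebraic over `F`. -/
def Conn (F : Type u) (K : Type v) [Field F] [Field K] [Algebra F K] : Prop :=
  ∃ s : Set (IntermediateField F K), s.Finite ∧ (∀ L ∈ s, DC L K) ∧
    ∀ a : K, (∀ L ∈ s, IsAlgebraic L a) → IsAlgebraic F a

section

variable {F : Type u} {K : Type v} [Field F] [Field K] [Algebra F K]

lemma Conn.descend {E : IntermediateField F K} (h : Conn E K) :
    ∃ s : Set (IntermediateField F K), s.Finite ∧ (∀ L ∈ s, DC L K) ∧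
      ∀ a : K, (∀ L ∈ s, IsAlgebraic L a) → IsAlgebraic E a := by
  obtain ⟨s, hs, h1, h2⟩ := h
  refine ⟨(fun L : IntermediateField E K => L.restrictScalars F) '' s, hs.image _, ?_, ?_⟩
  · rintro _ ⟨L, hL, rfl⟩
    exact h1 L hL
  · intro a ha
    exact h2 a fun L hL => ha _ ⟨L, hL, rfl⟩

/-- combination -/
lemma Conn.of_two {E₁ E₂ : IntermediateField F K} (h₁ : Conn E₁ K) (h₂ : Conn E₂ K)
    (h : ∀ a : K, IsAlgebraic E₁ a → IsAlgebraic E₂ a → IsAlgebraic F a) : Conn F K := by
  obtain ⟨s, hs, hs1, hs2⟩ := h₁.descend
  obtain ⟨t, ht, ht1, ht2⟩ := h₂.descend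
  refine ⟨s ∪ t, hs.union ht, ?_, ?_⟩
  · rintro L (hL | hL)
    · exact hs1 L hL
    · exact ht1 L hL
  · intro a ha
    exact h a (hs2 a fun L hL => ha L (Or.inl hL)) (ht2 a fun L hL => ha L (Or.inr hL))

/-- Elements which are algebraic over `E` and over `F(μ)` with `μ` transcendental over `E` are
algebraic over `F`. -/
lemma isAlgebraic_of_two {E : IntermediateField F K} {μ a : K} (hμ : Transcendental E μ)
    (h1 : IsAlgebraic E a) (h2 : IsAlgebraic (IntermediateField.adjoin F {μ}) a) :
    IsAlgebraic F a := by
  by_contra ha
  have hμF : Transcendental F μ := hμ.of_tower_top F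
  have h3 : IsAlgebraic (Algebra.adjoin F {a}) μ := by
    have := IsAlgebraic.adjoin_singleton (B := K) hμF ha
      (IntermediateField.isAlgebraic_adjoin_iff.1 h2)
    simpa using this
  have h4 : IsAlgebraic (IntermediateField.adjoin F {a}) μ :=
    IntermediateField.isAlgebraic_adjoin_iff.2 h3
  -- the relative algebraic closure of `E`
  have h5 : IntermediateField.adjoin F {a} ≤ (algebraicClosure E K).restrictScalars F := by
    rw [IntermediateField.adjoin_simple_le_iff]
    exact mem_algebraicClosure_iff.2 h1
  have h6 : IsAlgebraic ((algebraicClosure E K).restrictScalars F) μ := isAlgebraic_mono h5 h4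
  have h7 : IsAlgebraic (algebraicClosure E K) μ := h6
  apply hμ
  exact IsAlgebraic.restrictScalars E h7

/-- the curve case -/
lemma conn_of_curve {t w : K} {Q : Polynomial F} (ht : Transcendental F t)
    (hw : w ^ 2 = Polynomial.aeval t Q) (hQ : Q.natDegree ≤ 4)
    (hgen : IntermediateField.adjoin F {t, w} = ⊤) : Conn F K := by
  set L := algebraicClosure F K with hL
  have htL : Transcendental L t := by
    intro h
    exact ht (IsAlgebraic.restrictScalars F h)
  have hgenL : IntermediateField.adjoin L {t, w} = ⊤ := by
    rw [eq_top_iff]
    intro z _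
    have hz : z ∈ IntermediateField.adjoin F {t, w} := by rw [hgen]; trivial
    have hle : IntermediateField.adjoin F {t, w} ≤
        (IntermediateField.adjoin L {t, w}).restrictScalars F := by
      rw [IntermediateField.adjoin_le_iff]
      exact IntermediateField.subset_adjoin _ _
    exact hle hz
  set Q' := Q.map (algebraMap F L) with hQ'
  have hw' : w ^ 2 = Polynomial.aeval t Q' := by
    rw [hQ', Polynomial.aeval_map_algebraMap, hw]
  refine ⟨{L}, Set.finite_singleton _, ?_, ?_⟩
  · rintro _ rfl
    by_cases hsq : ∃ (c : L) (R : Polynomial L), Q' = .C c * R ^ 2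
    · obtain ⟨c, R, hR⟩ := hsq
      refine ⟨t ^ 2, t, .X, ?_, ?_, ?_, ?_, ?_⟩
      · exact htL.pow (by norm_num)
      · simp
      · simp
      · rintro ⟨c, R, hX⟩
        have h1 := congrArg Polynomial.natDegree hX
        by_cases hc : c = 0
        · rw [hc] at hX
          simp at hX
        · rw [Polynomial.natDegree_X, Polynomial.natDegree_C_mul hc, Polynomial.natDegree_pow] at h1
          omega
      · have h1 : w ∈ IntermediateField.adjoin L {t ^ 2, t} := by
          have htm : t ∈ IntermediateField.adjoin L {t ^ 2, t} :=
            IntermediateField.subset_adjoin _ _ (by simp)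
          have hρ : Polynomial.aeval t R ∈ IntermediateField.adjoin L {t ^ 2, t} := by
            have h3 : Algebra.adjoin L {t} ≤
                (IntermediateField.adjoin L {t ^ 2, t}).toSubalgebra :=
              Algebra.adjoin_le (by rintro _ rfl; exact htm)
            exact h3 (Polynomial.aeval_mem_adjoin_singleton L t)
          have h2 : w ^ 2 = algebraMap L K c * (Polynomial.aeval t R) ^ 2 := by
            rw [hw', hR]
            simp
          by_cases h0 : Polynomial.aeval t R = 0
          · rw [h0] at h2
            have : w = 0 := by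
              simpa using h2
            rw [this]
            exact zero_mem _
          · have h3 : w / Polynomial.aeval t R ∈ L := by
              have h4 : IsAlgebraic L (w / Polynomial.aeval t R) := by
                refine IsAlgebraic.of_pow (n := 2) (by norm_num) ?_
                rw [div_pow, h2, mul_div_assoc, div_self (pow_ne_zero _ h0), mul_one]
                exact isAlgebraic_algebraMap c
              exact mem_algebraicClosure_iff.2 (IsAlgebraic.restrictScalars F h4)
            have h5 : w = algebraMap L K ⟨_, h3⟩ * Polynomial.aeval t R := by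
              change w = w / Polynomial.aeval t R * Polynomial.aeval t R
              field_simp
            rw [h5]
            exact mul_mem (IntermediateField.algebraMap_mem _ _) hρ
        rw [eq_top_iff, ← hgenL, IntermediateField.adjoin_le_iff]
        rintro x (rfl | rfl)
        · exact IntermediateField.subset_adjoin _ _ (by simp)
        · exact h1
    · exact ⟨t, w, Q', htL, hw', (Polynomial.natDegree_map_le).trans hQ, hsq, hgenL⟩
  · intro a ha
    exact IsAlgebraic.restrictScalars F (ha L rfl)

end

end Pool.Agent.V7H25.HC
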