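import Pool.Agent.V7H25.HC.Conn

set_option autoImplicit false

/-!
# Double covers of projective spaces branched along hyperplanes: the induction (helper25)
-/

open Module Cardinal Pointwise

namespace Pool.Agent.V7H25.HC

universe v

section

variable {F K : Type v} [Field F] [Field K] [Algebra F K] {ι : Type} [DecidableEq ι]

/-- `K` is the function field of the double cover `w² = ∏ ℓ i · g` of a projective space over `F`
with space of linear forms `U`. -/
structure Dat {F K : Type v} [Field F] [Field K] [Algebra F K] {ι : Type} (n : ℕ)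
    (U : Submodule F K) (S : Finset ι) (ℓ : ι → K) (d : ℕ) (g w : K) : Prop where
  base : Base n U
  lin : ∀ i ∈ S, ℓ i ∈ U
  card : S.card + d = 2 * n + 2
  hg : g ∈ U ^ d
  eq : w ^ 2 = (∏ i ∈ S, ℓ i) * g
  gen : ∀ u ∈ U, u ≠ 0 → IntermediateField.adjoin F (rat U u ∪ {w / u ^ (n + 1)}) = ⊤

open Classical in
/-- not too many hyperplanes contain a linear subspace -/
def Pos {F K : Type v} [Field F] [Field K] [Algebra F K] {ι : Type} (n : ℕ)
    (U : Submodule F K) (S : Finset ι) (ℓ : ι → K) : Prop :=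
  ∀ V ≤ U, 2 ≤ finrank F V → finrank F V ≤ n →
    (S.filter (fun i => ℓ i ∈ V)).card ≤
      max (finrank F V) (S.card + 2 * finrank F V - (2 * n + 1))

lemma ext_pow (E : IntermediateField F K) (U : Submodule F K) (d : ℕ) {g : K} (hg : g ∈ U ^ d) :
    g ∈ (ext E U) ^ d := by
  rw [ext, Submodule.span_pow]
  have h1 : U ^ d = Submodule.span F ((U : Set K) ^ d) := by
    conv_lhs => rw [← Submodule.span_eq U]
    rw [Submodule.span_pow]
  rw [h1] at hg
  exact Submodule.span_le_restrictScalars F E _ hg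

lemma exists_between {V U : Submodule F K} [FiniteDimensional F U] (h : V ≤ U) {k : ℕ}
    (h1 : finrank F V ≤ k) (h2 : k ≤ finrank F U) :
    ∃ V₁ : Submodule F K, V ≤ V₁ ∧ V₁ ≤ U ∧ finrank F V₁ = k := by
  induction k, h1 using Nat.le_induction with
  | base => exact ⟨V, le_rfl, h, rfl⟩
  | succ k hk ih =>
    obtain ⟨V₁, h3, h4, h5⟩ := ih (by omega)
    have hfin : FiniteDimensional F V₁ := Submodule.finiteDimensional_of_le h4
    obtain ⟨x, hxU, hxV⟩ : ∃ x ∈ U, x ∉ V₁ := by
      by_contra hcon
      push Not at hcon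
      have : U = V₁ := le_antisymm hcon h4
      rw [this] at h2
      omega
    have hx0 : x ≠ 0 := fun h => hxV (by rw [h]; exact zero_mem _)
    refine ⟨V₁ ⊔ (F ∙ x), h3.trans le_sup_left,
      sup_le h4 ((Submodule.span_singleton_le_iff_mem _ _).2 hxU), ?_⟩
    have h6 := Submodule.finrank_sup_add_finrank_inf_eq V₁ (F ∙ x)
    have h7 : V₁ ⊓ (F ∙ x) = ⊥ := by
      rw [eq_bot_iff]
      rintro y ⟨hy1, hy2⟩
      obtain ⟨a, rfl⟩ := Submodule.mem_span_singleton.1 hy2
      by_cases ha : a = 0
      · rw [ha, zero_smul]; exact zero_mem _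
      · exfalso
        apply hxV
        have := Submodule.smul_mem _ a⁻¹ hy1
        rwa [smul_smul, inv_mul_cancel₀ ha, one_smul] at this
    rw [h7, finrank_bot, finrank_span_singleton hx0] at h6
    omega

/-- going to the generic member of the pencil spanned by two of the hyperplanes -/
lemma Dat.step {n d : ℕ} {U : Submodule F K} {S : Finset ι} {ℓ : ι → K} {g w : K}
    (h : Dat n U S ℓ d g w) {i j : ι} (hi : i ∈ S) (hj : j ∈ S) (hj0 : ℓ j ≠ 0)
    (hij : ℓ i ∉ F ∙ ℓ j) :
    ∃ m, n = m + 1 ∧ Dat m (ext (IntermediateField.adjoin F {ℓ i / ℓ j}) U)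
      ((S.erase i).erase j) ℓ d (ℓ i / ℓ j * g) (w / ℓ j) ∧ Transcendental F (ℓ i / ℓ j) ∧
      (Pos n U S ℓ → Pos m (ext (IntermediateField.adjoin F {ℓ i / ℓ j}) U)
        ((S.erase i).erase j) ℓ) := by
  classical
  have hne : i ≠ j := by
    rintro rfl
    exact hij (Submodule.mem_span_singleton_self _)
  obtain ⟨m, hnm, hb, htr⟩ := h.base.step (h.lin i hi) (h.lin j hj) hj0 hij
  set E := IntermediateField.adjoin F {ℓ i / ℓ j} with hE
  have hjm : j ∈ S.erase i := Finset.mem_erase.2 ⟨hne.symm, hj⟩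
  have hpE : ℓ i / ℓ j ∈ E := IntermediateField.subset_adjoin _ _ rfl
  have hcard : ((S.erase i).erase j).card + 2 = S.card := by
    have h1 := Finset.card_erase_add_one hi
    have h2 := Finset.card_erase_add_one hjm
    omega
  refine ⟨m, hnm, ⟨hb, ?_, ?_, ?_, ?_, ?_⟩, htr, ?_⟩
  · intro k hk
    exact mem_ext (h.lin k (Finset.mem_of_mem_erase (Finset.mem_of_mem_erase hk)))
  · have := h.card
    omega
  · have h1 := Submodule.smul_mem ((ext E U) ^ d) (⟨ℓ i / ℓ j, hpE⟩ : E) (ext_pow E U d h.hg)
    rwa [Algebra.smul_def] at h1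
  · have h1 : ∏ k ∈ S, ℓ k = ℓ i * (ℓ j * ∏ k ∈ (S.erase i).erase j, ℓ k) := by
      rw [Finset.mul_prod_erase _ _ hjm, Finset.mul_prod_erase _ _ hi]
    rw [div_pow, h.eq, h1]
    field_simp
  · intro u hu hu0
    rw [eq_top_iff]
    intro z _
    have hz : z ∈ IntermediateField.adjoin F (rat U (ℓ j) ∪ {w / ℓ j ^ (n + 1)}) := by
      rw [h.gen _ (h.lin j hj) hj0]; trivial
    have hle : IntermediateField.adjoin F (rat U (ℓ j) ∪ {w / ℓ j ^ (n + 1)}) ≤
        (IntermediateField.adjoin E (rat (ext E U) u ∪ {w / ℓ j / u ^ (m + 1)})).restrictScalars F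
        := by
      have h2 : ℓ j / u ∈ IntermediateField.adjoin E
          (rat (ext E U) u ∪ {w / ℓ j / u ^ (m + 1)}) :=
        IntermediateField.subset_adjoin _ _ (Or.inl ⟨ℓ j, mem_ext (h.lin j hj), rfl⟩)
      rw [IntermediateField.adjoin_le_iff]
      rintro x (⟨a, ha, rfl⟩ | rfl)
      · have h1 : a / u ∈ IntermediateField.adjoin E
            (rat (ext E U) u ∪ {w / ℓ j / u ^ (m + 1)}) :=
          IntermediateField.subset_adjoin _ _ (Or.inl ⟨a, mem_ext ha, rfl⟩)
        have h3 : a / ℓ j = (a / u) / (ℓ j / u) := by field_simp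
        change a / ℓ j ∈ IntermediateField.adjoin E
          (rat (ext E U) u ∪ {w / ℓ j / u ^ (m + 1)})
        rw [h3]
        exact div_mem h1 h2
      · have h1 : w / ℓ j / u ^ (m + 1) ∈ IntermediateField.adjoin E
            (rat (ext E U) u ∪ {w / ℓ j / u ^ (m + 1)}) :=
          IntermediateField.subset_adjoin _ _ (Or.inr rfl)
        have h3 : w / ℓ j ^ (n + 1) = (w / ℓ j / u ^ (m + 1)) / (ℓ j / u) ^ (m + 1) := by
          rw [hnm, div_pow]
          field_simp
          ring
        change w / ℓ j ^ (n + 1) ∈ IntermediateField.adjoin E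
          (rat (ext E U) u ∪ {w / ℓ j / u ^ (m + 1)})
        rw [h3]
        exact div_mem h1 (pow_mem h2 _)
    exact hle hz
  · intro hpos V' hV' h2 hm
    set T := ((S.erase i).erase j).filter (fun k => ℓ k ∈ V') with hT
    -- the space over `F` spanned by these forms
    set V : Submodule F K := Submodule.span F (ℓ '' (T : Set ι)) with hV
    have hTS : ∀ k ∈ T, k ∈ S := fun k hk => Finset.mem_of_mem_erase
      (Finset.mem_of_mem_erase (Finset.mem_filter.1 hk).1)
    have hVU : V ≤ U := by
      rw [hV, Submodule.span_le]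
      rintro _ ⟨k, hk, rfl⟩
      exact h.lin k (hTS k hk)
    have hUfin := h.base.fin
    have hVfin : FiniteDimensional F V := Submodule.finiteDimensional_of_le hVU
    have hV'fin : FiniteDimensional E V' := Submodule.finiteDimensional_of_le hV'
    have hle : ext E V ≤ V' := by
      refine Submodule.span_le.2 fun a ha => ?_
      have : V ≤ V'.restrictScalars F := by
        rw [hV, Submodule.span_le]
        rintro _ ⟨k, hk, rfl⟩
        exact (Finset.mem_filter.1 hk).2
      exact this ha
    have hrk : finrank E (ext E V) ≤ finrank E V' := Submodule.finrank_mono hle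
    have hVV : ∀ k ∈ T, ℓ k ∈ V := fun k hk => Submodule.subset_span ⟨k, hk, rfl⟩
    rcases Nat.lt_or_ge (finrank E (ext E V)) (finrank F V) with hlt | hge
    · -- the axis of the pencil contains the linear subspace
      obtain ⟨hiV, hjV⟩ := h.base.mem_of_finrank_lt (h.lin i hi) (h.lin j hj) hj0 hij hpE hb.fr hnm
        hVU hlt
      have h3 := h.base.finrank_le hb.fr hnm hVU
      -- a space of dimension one more
      obtain ⟨V₁, hVV₁, hV₁U, hV₁⟩ : ∃ V₁ : Submodule F K, V ≤ V₁ ∧ V₁ ≤ U ∧
          finrank F V₁ = finrank E V' + 1 :=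
        exists_between hVU (by omega) (by rw [h.base.fr]; omega)
      have h4 := hpos V₁ hV₁U (by omega) (by omega)
      have h5 : T.card + 2 ≤ (S.filter (fun k => ℓ k ∈ V₁)).card := by
        have h6 : insert i (insert j T) ⊆ S.filter (fun k => ℓ k ∈ V₁) := by
          intro k hk
          rw [Finset.mem_insert, Finset.mem_insert] at hk
          rcases hk with rfl | rfl | hk
          · exact Finset.mem_filter.2 ⟨hi, hVV₁ hiV⟩
          · exact Finset.mem_filter.2 ⟨hj, hVV₁ hjV⟩
          · exact Finset.mem_filter.2 ⟨hTS k hk, hVV₁ (hVV k hk)⟩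
        have h7 := Finset.card_le_card h6
        rw [Finset.card_insert_of_notMem, Finset.card_insert_of_notMem] at h7
        · exact h7
        · intro hh
          exact (Finset.mem_erase.1 (Finset.mem_filter.1 hh).1).1 rfl
        · intro hh
          rw [Finset.mem_insert] at hh
          rcases hh with hh | hh
          · exact hne hh
          · exact (Finset.mem_erase.1 (Finset.mem_of_mem_erase (Finset.mem_filter.1 hh).1)).1 rfl
      rw [hV₁] at h4
      change T.card ≤ _
      omega
    · obtain ⟨V₁, hVV₁, hV₁U, hV₁⟩ : ∃ V₁ : Submodule F K, V ≤ V₁ ∧ V₁ ≤ U ∧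
          finrank F V₁ = finrank E V' :=
        exists_between hVU (by omega) (by rw [h.base.fr]; omega)
      have h4 := hpos V₁ hV₁U (by omega) (by omega)
      have h5 : T.card ≤ (S.filter (fun k => ℓ k ∈ V₁)).card := by
        refine Finset.card_le_card fun k hk => Finset.mem_filter.2 ⟨hTS k hk, hVV₁ (hVV k hk)⟩
      rw [hV₁] at h4
      change T.card ≤ _
      omega

omit [DecidableEq ι] in
/-- the curve case -/
lemma Dat.conn_one {d : ℕ} {U : Submodule F K} {S : Finset ι} {ℓ : ι → K} {g w : K}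
    (h : Dat 1 U S ℓ d g w) : Conn F K := by
  classical
  have hfin := h.base.fin
  obtain ⟨y, hyU, hy0⟩ := Submodule.exists_mem_ne_zero_of_ne_bot (p := U) (by
    intro hbot
    have := h.base.fr
    rw [hbot, finrank_bot] at this
    omega)
  obtain ⟨C, hCU, hsup, hrk⟩ := exists_compl (V := F ∙ y) (W := U)
    ((Submodule.span_singleton_le_iff_mem _ _).2 hyU)
  rw [finrank_span_singleton hy0, h.base.fr] at hrk
  have hC1 : finrank F C = 1 := by omega
  obtain ⟨z, hzC, hz⟩ : ∃ z ∈ C, ∀ x ∈ C, ∃ c : F, x = c • z := by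
    obtain ⟨z, hz0, hz⟩ := finrank_eq_one_iff'.1 hC1
    refine ⟨z, z.2, fun x hx => ?_⟩
    obtain ⟨c, hc⟩ := hz ⟨x, hx⟩
    exact ⟨c, by rw [← Submodule.coe_smul, hc]⟩
  set t := z / y with ht
  have hlin : ∀ a ∈ U, ∃ α β : F, a / y = algebraMap F K α + algebraMap F K β * t := by
    intro a ha
    rw [← hsup] at ha
    obtain ⟨p, hp, q, hq, rfl⟩ := Submodule.mem_sup.1 ha
    obtain ⟨α, rfl⟩ := Submodule.mem_span_singleton.1 hp
    obtain ⟨β, rfl⟩ := hz q hq
    refine ⟨α, β, ?_⟩
    rw [ht, Algebra.smul_def, Algebra.smul_def]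
    field_simp
  have hpoly : ∀ (k : ℕ) (x : K), x ∈ U ^ k →
      ∃ Q : Polynomial F, Q.natDegree ≤ k ∧ x / y ^ k = Polynomial.aeval t Q := by
    intro k x hx
    refine Submodule.pow_induction_on_left' U
      (C := fun k x _ => ∃ Q : Polynomial F, Q.natDegree ≤ k ∧ x / y ^ k = Polynomial.aeval t Q)
      ?_ ?_ ?_ hx
    · intro r
      exact ⟨.C r, by simp, by simp⟩
    · rintro x y i hx hy ⟨Q, hQ, hQx⟩ ⟨R, hR, hRy⟩
      exact ⟨Q + R, (Polynomial.natDegree_add_le _ _).trans (max_le hQ hR), by
        rw [add_div, hQx, hRy, map_add]⟩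
    · rintro a ha i x hx ⟨Q, hQ, hQx⟩
      obtain ⟨α, β, hαβ⟩ := hlin a ha
      refine ⟨(.C α + .C β * .X) * Q, ?_, ?_⟩
      · refine Polynomial.natDegree_mul_le.trans ?_
        have : (Polynomial.C α + Polynomial.C β * Polynomial.X).natDegree ≤ 1 := by
          rw [add_comm]
          exact Polynomial.natDegree_linear_le
        omega
      · rw [map_mul, ← hQx]
        simp only [map_add, map_mul, Polynomial.aeval_C, Polynomial.aeval_X]
        rw [← hαβ, Nat.succ_eq_add_one, pow_succ]
        field_simp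
  -- the branch form
  have hprod : (∏ i ∈ S, ℓ i) * g ∈ U ^ 4 := by
    have h1 : ∀ T : Finset ι, (∀ i ∈ T, ℓ i ∈ U) → ∏ i ∈ T, ℓ i ∈ U ^ T.card := by
      intro T
      induction T using Finset.induction_on with
      | empty => intro _; simp
      | insert a T ha ih =>
        intro hT
        rw [Finset.prod_insert ha, Finset.card_insert_of_notMem ha, pow_succ']
        exact Submodule.mul_mem_mul (hT a (Finset.mem_insert_self _ _))
          (ih fun i hi => hT i (Finset.mem_insert_of_mem hi))
    have h2 := Submodule.mul_mem_mul (h1 S h.lin) h.hg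
    rw [← pow_add, h.card] at h2
    exact h2
  obtain ⟨Q, hQ, hQx⟩ := hpoly 4 _ hprod
  have hgen : IntermediateField.adjoin F {t, w / y ^ 2} = ⊤ := by
    rw [eq_top_iff, ← h.gen y hyU hy0, IntermediateField.adjoin_le_iff]
    rintro x (⟨a, ha, rfl⟩ | rfl)
    · obtain ⟨α, β, hαβ⟩ := hlin a ha
      change a / y ∈ IntermediateField.adjoin F {t, w / y ^ 2}
      rw [hαβ]
      exact add_mem (IntermediateField.algebraMap_mem _ _)
        (mul_mem (IntermediateField.algebraMap_mem _ _)
        (IntermediateField.subset_adjoin _ _ (by simp)))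
    · exact IntermediateField.subset_adjoin _ _ (by simp)
  have hw2 : (w / y ^ 2) ^ 2 = Polynomial.aeval t Q := by
    rw [← hQx, div_pow, h.eq]
    ring
  refine conn_of_curve (t := t) (w := w / y ^ 2) (Q := Q) ?_ hw2 hQ hgen
  intro halg
  have h1 : Algebra.IsAlgebraic F K := by
    have h2 : Algebra.IsAlgebraic F (IntermediateField.adjoin F {t, w / y ^ 2}) := by
      refine IntermediateField.isAlgebraic_adjoin ?_
      rintro x (rfl | rfl)
      · exact halg.isIntegral
      · have h3 : IsAlgebraic F ((w / y ^ 2) ^ 2) := by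
          rw [hw2]
          have h5 : Algebra.adjoin F {t} ≤ (algebraicClosure F K).toSubalgebra :=
            Algebra.adjoin_le (by rintro _ rfl; exact mem_algebraicClosure_iff.2 halg)
          exact mem_algebraicClosure_iff.1 (h5 (Polynomial.aeval_mem_adjoin_singleton F t))
        exact (IsAlgebraic.of_pow (by norm_num) h3).isIntegral
    rw [hgen] at h2
    exact ⟨fun z => (IntermediateField.isAlgebraic_iff).1 (h2.isAlgebraic ⟨z, trivial⟩)⟩
  have h4 := h.base.tr
  rw [trdeg_eq_zero] at h4
  exact absurd h4 (by simp)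

end

end Pool.Agent.V7H25.HC
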