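import Pool.Agent.V7H25.HC.Dat

set_option autoImplicit false
set_option linter.unusedSectionVars false
set_option linter.unusedVariables false

/-!
# Double covers of projective spaces branched along hyperplanes: the main induction (helper25)
-/

open Module Cardinal Pointwise

namespace Pool.Agent.V7H25.HC

universe v

section

variable {F K : Type v} [Field F] [Field K] [Algebra F K] {ι : Type} [DecidableEq ι]

/-- linear independence of forms on the generic member of a pencil -/
lemma Base.indep_step {n k : ℕ} {U : Submodule F K} (h : Base n U) {p q : K} (hp : p ∈ U)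
    (hq : q ∈ U) (hq0 : q ≠ 0) (hpq : p ∉ F ∙ q) {v : Fin k → K} (hv : ∀ i, v i ∈ U)
    (hli : LinearIndependent F v)
    (hnot : ¬ (p ∈ Submodule.span F (Set.range v) ∧ q ∈ Submodule.span F (Set.range v))) :
    LinearIndependent (IntermediateField.adjoin F {p / q}) v := by
  obtain ⟨m, hnm, hb, -⟩ := h.step hp hq hq0 hpq
  set E := IntermediateField.adjoin F {p / q} with hE
  have hVU : Submodule.span F (Set.range v) ≤ U := by
    rw [Submodule.span_le]
    rintro _ ⟨i, rfl⟩
    exact hv i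
  have h1 : finrank F (Submodule.span F (Set.range v)) = k := by
    rw [finrank_span_eq_card hli]; simp
  have h2 : k ≤ finrank E (ext E (Submodule.span F (Set.range v))) := by
    by_contra hcon
    push Not at hcon
    have hpE : p / q ∈ E := IntermediateField.subset_adjoin _ _ rfl
    exact hnot (h.mem_of_finrank_lt hp hq hq0 hpq hpE hb.fr hnm hVU (by rw [h1]; exact hcon))
  have h3 : ext E (Submodule.span F (Set.range v)) = Submodule.span E (Set.range v) := by
    apply le_antisymm
    · refine Submodule.span_le.2 fun a ha => ?_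
      exact Submodule.span_le_restrictScalars F E _ ha
    · refine Submodule.span_le.2 ?_
      rintro _ ⟨i, rfl⟩
      exact mem_ext (Submodule.subset_span ⟨i, rfl⟩)
  rw [linearIndependent_iff_card_le_finrank_span]
  rw [h3] at h2
  simpa [Set.finrank] using h2

lemma notMem_span_of_indep {a c : K} (h : LinearIndependent F ![a, c]) : a ∉ F ∙ c := by
  intro ha
  obtain ⟨r, hr⟩ := Submodule.mem_span_singleton.1 ha
  rw [LinearIndependent.pair_iff] at h
  have := h 1 (-r) (by rw [one_smul, neg_smul, hr, add_neg_cancel])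
  exact one_ne_zero this.1

/-- The elements `a / c` for four independent forms -/
lemma Base.four {n : ℕ} {U : Submodule F K} (h : Base n U) {a b c e : K} (ha : a ∈ U)
    (hb : b ∈ U) (hc : c ∈ U) (he : e ∈ U) (hli : LinearIndependent F ![b, e, a, c]) :
    Transcendental (IntermediateField.adjoin (IntermediateField.adjoin F {a / b}) {c / e})
      (a / c) := by
  have hb0 : b ≠ 0 := hli.ne_zero 0
  have he0 : e ≠ 0 := hli.ne_zero 1
  have hc0 : c ≠ 0 := hli.ne_zero 3
  have hab : a ∉ F ∙ b := by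
    apply notMem_span_of_indep
    have := hli.comp ![2, 0] (by decide)
    convert! this using 1
    ext i; fin_cases i <;> rfl
  have h1 : LinearIndependent F ![e, a, c] ∧ b ∉ Submodule.span F (Set.range ![e, a, c]) :=
    linearIndependent_finCons.1 hli
  obtain ⟨m, -, hb1, -⟩ := h.step ha hb hb0 hab
  set E := IntermediateField.adjoin F {a / b} with hE
  have hliE : LinearIndependent E ![e, a, c] := by
    refine h.indep_step ha hb hb0 hab ?_ h1.1 fun hh => h1.2 hh.2
    intro i
    fin_cases i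
    · exact he
    · exact ha
    · exact hc
  have hce : c ∉ E ∙ e := by
    apply notMem_span_of_indep
    have := hliE.comp ![2, 0] (by decide)
    convert! this using 1
    ext i; fin_cases i <;> rfl
  have h2 : LinearIndependent E ![a, c] ∧ e ∉ Submodule.span E (Set.range ![a, c]) :=
    linearIndependent_finCons.1 hliE
  obtain ⟨m', -, hb2, -⟩ := hb1.step (mem_ext hc) (mem_ext he) he0 hce
  have hliE' : LinearIndependent (IntermediateField.adjoin E {c / e}) ![a, c] := by
    refine hb1.indep_step (mem_ext hc) (mem_ext he) he0 hce ?_ h2.1 fun hh => h2.2 hh.2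
    intro i
    fin_cases i
    · exact mem_ext ha
    · exact mem_ext hc
  obtain ⟨m'', -, -, htr⟩ := hb2.step (mem_ext (mem_ext ha)) (mem_ext (mem_ext hc)) hc0
    (notMem_span_of_indep hliE')
  exact htr

/-- not all of the forms lie in a small subspace -/
lemma Pos.exists_notMem {n : ℕ} {U : Submodule F K} [FiniteDimensional F U] {S : Finset ι}
    {ℓ : ι → K} (h : Pos n U S ℓ) (hU : finrank F U = n + 1) {c : ℕ} (hc : 2 ≤ c) (hcn : c ≤ n)
    (hcS : c < S.card) (hnc : 2 * c < 2 * n + 1 ∨ S.card + 2 * c - (2 * n + 1) < S.card)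
    {V : Submodule F K} (hV : V ≤ U) (hVc : finrank F V ≤ c) : ∃ i ∈ S, ℓ i ∉ V := by
  classical
  by_contra hcon
  push Not at hcon
  obtain ⟨V₁, hVV₁, hV₁U, hV₁⟩ := exists_between (k := c) hV hVc (by omega)
  have h1 := h V₁ hV₁U (by omega) (by omega)
  rw [Finset.filter_true_of_mem fun i hi => hVV₁ (hcon i hi), hV₁] at h1
  omega

/-- Three independent forms. -/
lemma Pos.exists_three {n : ℕ} {U : Submodule F K} [FiniteDimensional F U] {S : Finset ι}
    {ℓ : ι → K} (h : Pos n U S ℓ) (hU : finrank F U = n + 1) (hn : 2 ≤ n) (hS : 3 ≤ S.card)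
    (hlin : ∀ i ∈ S, ℓ i ∈ U) :
    ∃ i ∈ S, ∃ j ∈ S, ∃ k ∈ S, LinearIndependent F ![ℓ k, ℓ j, ℓ i] := by
  have key : ∀ V ≤ U, finrank F V ≤ 2 → ∃ i ∈ S, ℓ i ∉ V := fun V hV hV2 =>
    h.exists_notMem hU le_rfl hn (by omega) (by omega) hV hV2
  obtain ⟨i, hi, hi0⟩ := key ⊥ bot_le (by simp)
  have hli1 : LinearIndependent F ![ℓ i] := by
    rw [linearIndependent_unique_iff]
    simpa using hi0
  have hspan1 : Submodule.span F (Set.range ![ℓ i]) ≤ U := by
    rw [Submodule.span_le]
    rintro _ ⟨a, rfl⟩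
    fin_cases a
    exact hlin i hi
  obtain ⟨j, hj, hjV⟩ := key _ hspan1 (by rw [finrank_span_eq_card hli1]; simp)
  have hli2 : LinearIndependent F ![ℓ j, ℓ i] := linearIndependent_finCons.2 ⟨hli1, hjV⟩
  have hspan2 : Submodule.span F (Set.range ![ℓ j, ℓ i]) ≤ U := by
    rw [Submodule.span_le]
    rintro _ ⟨a, rfl⟩
    fin_cases a
    · exact hlin j hj
    · exact hlin i hi
  obtain ⟨k, hk, hkV⟩ := key _ hspan2 (by rw [finrank_span_eq_card hli2]; simp)
  exact ⟨i, hi, j, hj, k, hk, linearIndependent_finCons.2 ⟨hli2, hkV⟩⟩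

/-- three planes fibrations: four independent planes in space -/
lemma Dat.conn_four {d : ℕ} {U : Submodule F K} {S : Finset ι} {ℓ : ι → K} {g w : K}
    (h : Dat 3 U S ℓ d g w) {ia ib ic ie : ι} (ha : ia ∈ S) (hb : ib ∈ S) (hc : ic ∈ S)
    (he : ie ∈ S) (hli : LinearIndependent F ![ℓ ib, ℓ ie, ℓ ia, ℓ ic]) :
    ∃ E' : IntermediateField F K,
      (∀ A : IntermediateField F K, ℓ ia / ℓ ib ∈ A → ℓ ic / ℓ ie ∈ A → E' ≤ A) ∧
      ℓ ia / ℓ ib ∈ E' ∧ ℓ ic / ℓ ie ∈ E' ∧ Transcendental E' (ℓ ia / ℓ ic) ∧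
      ∃ s : Set (IntermediateField F K), s.Finite ∧ (∀ L ∈ s, DC L K) ∧
        ∀ a : K, (∀ L ∈ s, IsAlgebraic L a) → IsAlgebraic E' a := by
  have hb0 : ℓ ib ≠ 0 := hli.ne_zero 0
  have he0 : ℓ ie ≠ 0 := hli.ne_zero 1
  have hc0 : ℓ ic ≠ 0 := hli.ne_zero 3
  have hne : ∀ x y : Fin 4, x ≠ y → ![ib, ie, ia, ic] x ≠ ![ib, ie, ia, ic] y := by
    intro x y hxy hh
    apply hxy
    apply hli.injective
    have : ∀ z : Fin 4, ![ℓ ib, ℓ ie, ℓ ia, ℓ ic] z = ℓ (![ib, ie, ia, ic] z) := by
      intro z; fin_cases z <;> rfl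
    rw [this, this, hh]
  have hab : ℓ ia ∉ F ∙ ℓ ib := by
    apply notMem_span_of_indep
    have := hli.comp ![2, 0] (by decide)
    convert! this using 1
    ext i; fin_cases i <;> rfl
  have h1 : LinearIndependent F ![ℓ ie, ℓ ia, ℓ ic] ∧
      ℓ ib ∉ Submodule.span F (Set.range ![ℓ ie, ℓ ia, ℓ ic]) :=
    linearIndependent_finCons.1 hli
  obtain ⟨m, hm, hD1, -, -⟩ := h.step ha hb hb0 hab
  have hfour := h.base.four (h.lin _ ha) (h.lin _ hb) (h.lin _ hc) (h.lin _ he) hli
  have hliE := h.base.indep_step (h.lin _ ha) (h.lin _ hb) hb0 hab (v := ![ℓ ie, ℓ ia, ℓ ic])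
    (by
      intro i
      fin_cases i
      · exact h.lin _ he
      · exact h.lin _ ha
      · exact h.lin _ hc) h1.1 (fun hh => h1.2 hh.2)
  set E := IntermediateField.adjoin F {ℓ ia / ℓ ib} with hE
  have hce : ℓ ic ∉ E ∙ ℓ ie := by
    apply notMem_span_of_indep
    have := hliE.comp ![2, 0] (by decide)
    convert! this using 1
    ext i; fin_cases i <;> rfl
  have hcS : ic ∈ (S.erase ia).erase ib :=
    Finset.mem_erase.2 ⟨hne 3 0 (by decide), Finset.mem_erase.2 ⟨hne 3 2 (by decide), hc⟩⟩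
  have heS : ie ∈ (S.erase ia).erase ib :=
    Finset.mem_erase.2 ⟨hne 1 0 (by decide), Finset.mem_erase.2 ⟨hne 1 2 (by decide), he⟩⟩
  obtain ⟨m', hm', hD2, -, -⟩ := hD1.step hcS heS he0 hce
  obtain rfl : m' = 1 := by omega
  set E' := IntermediateField.adjoin E {ℓ ic / ℓ ie} with hE'
  obtain ⟨s, hs, hs1, hs2⟩ := hD2.conn_one.descend
  refine ⟨E'.restrictScalars F, ?_, ?_, ?_, hfour,
    (fun L : IntermediateField E K => L.restrictScalars F) '' s, hs.image _, ?_, ?_⟩
  · intro A hA1 hA2
    have hEA : E ≤ A := by rwa [hE, IntermediateField.adjoin_simple_le_iff]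
    have : E' ≤ IntermediateField.extendScalars hEA := by
      rwa [hE', IntermediateField.adjoin_simple_le_iff]
    exact this
  · exact IntermediateField.algebraMap_mem E'
      (⟨ℓ ia / ℓ ib, IntermediateField.subset_adjoin _ _ rfl⟩ : E)
  · exact IntermediateField.subset_adjoin E {ℓ ic / ℓ ie} rfl
  · rintro _ ⟨L, hL, rfl⟩
    exact hs1 L hL
  · intro a haa
    exact hs2 a fun L hL => haa _ ⟨L, hL, rfl⟩

/-- four independent planes in space -/
lemma Dat.conn_three {d : ℕ} {U : Submodule F K} {S : Finset ι} {ℓ : ι → K} {g w : K}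
    (h : Dat 3 U S ℓ d g w) {ia ib ic ie : ι} (ha : ia ∈ S) (hb : ib ∈ S) (hc : ic ∈ S)
    (he : ie ∈ S) (hli : LinearIndependent F ![ℓ ib, ℓ ie, ℓ ia, ℓ ic]) : Conn F K := by
  have hb0 : ℓ ib ≠ 0 := hli.ne_zero 0
  have he0 : ℓ ie ≠ 0 := hli.ne_zero 1
  have ha0 : ℓ ia ≠ 0 := hli.ne_zero 2
  have hc0 : ℓ ic ≠ 0 := hli.ne_zero 3
  obtain ⟨E₁, hE₁, hE₁a, hE₁b, htr₁, s₁, hs₁, hs₁1, hs₁2⟩ := h.conn_four ha hb hc he hli
  obtain ⟨E₂, hE₂, hE₂a, hE₂b, htr₂, s₂, hs₂, hs₂1, hs₂2⟩ := h.conn_four ha hc hb he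
    (by
      have := hli.comp ![3, 1, 2, 0] (by decide)
      convert! this using 1
      ext i; fin_cases i <;> rfl)
  obtain ⟨E₃, hE₃, hE₃a, hE₃b, htr₃, s₃, hs₃, hs₃1, hs₃2⟩ := h.conn_four ha he hb hc
    (by
      have := hli.comp ![1, 3, 2, 0] (by decide)
      convert! this using 1
      ext i; fin_cases i <;> rfl)
  refine ⟨s₁ ∪ s₂ ∪ s₃, (hs₁.union hs₂).union hs₃, ?_, ?_⟩
  · rintro L ((hL | hL) | hL)
    · exact hs₁1 L hL
    · exact hs₂1 L hL
    · exact hs₃1 L hL
  · intro x hx
    have hx₁ : IsAlgebraic E₁ x := hs₁2 x fun L hL => hx L (Or.inl (Or.inl hL))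
    have hx₂ : IsAlgebraic E₂ x := hs₂2 x fun L hL => hx L (Or.inl (Or.inr hL))
    have hx₃ : IsAlgebraic E₃ x := hs₃2 x fun L hL => hx L (Or.inr hL)
    set m : K := (ℓ ia / ℓ ib) / (ℓ ic / ℓ ie) with hm
    set M := IntermediateField.adjoin F {m} with hM
    have hME₁ : M ≤ E₁ := by
      rw [hM, IntermediateField.adjoin_simple_le_iff]
      exact div_mem hE₁a hE₁b
    -- first claim
    have hxM : IsAlgebraic M x := by
      refine isAlgebraic_of_two (E := IntermediateField.extendScalars hME₁) (μ := ℓ ia / ℓ ic)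
        htr₁ hx₁ ?_
      have hle : E₂ ≤ (IntermediateField.adjoin M {ℓ ia / ℓ ic}).restrictScalars F := by
        have h1 : ℓ ia / ℓ ic ∈ IntermediateField.adjoin M {ℓ ia / ℓ ic} :=
          IntermediateField.subset_adjoin _ _ rfl
        have h2 : m ∈ IntermediateField.adjoin M {ℓ ia / ℓ ic} :=
          IntermediateField.algebraMap_mem (IntermediateField.adjoin M {ℓ ia / ℓ ic})
            (⟨m, IntermediateField.subset_adjoin _ _ rfl⟩ : M)
        refine hE₂ _ h1 ?_
        have h3 : ℓ ib / ℓ ie = (ℓ ia / ℓ ic) / m := by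
          rw [hm]; field_simp
        change ℓ ib / ℓ ie ∈ IntermediateField.adjoin M {ℓ ia / ℓ ic}
        rw [h3]
        exact div_mem h1 h2
      exact isAlgebraic_mono hle hx₂
    refine isAlgebraic_of_two (E := E₃) (μ := m) ?_ hx₃ hxM
    intro hmalg
    apply htr₃
    set s : K := (ℓ ib / ℓ ic) / (ℓ ia / ℓ ie) with hs
    have hsE : s ∈ E₃ := div_mem hE₃b hE₃a
    have h1 : (ℓ ia / ℓ ib) ^ 2 = m * s⁻¹ := by
      rw [hm, hs]; field_simp
    have h2 : IsAlgebraic E₃ (s⁻¹) := isAlgebraic_algebraMap (⟨s⁻¹, inv_mem hsE⟩ : E₃)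
    refine IsAlgebraic.of_pow (n := 2) (by norm_num) ?_
    rw [h1]
    exact hmalg.mul h2

/-- **The main induction.** -/
theorem main (n : ℕ) : ∀ (F : Type v) [Field F] [Algebra F K] (U : Submodule F K) (S : Finset ι)
    (ℓ : ι → K) (d : ℕ) (g w : K), Dat n U S ℓ d g w → Pos n U S ℓ → 1 ≤ n →
    (n = 1 ∨ 2 * n ≤ S.card + 1 ∨ 3 ≤ n ∧ 2 * n ≤ S.card + 2) → Conn F K := by
  classical
  induction n with
  | zero =>
    intro F _ _ U S ℓ d g w h hpos hn
    omega
  | succ n ih =>
    intro F _ _ U S ℓ d g w h hpos hn hcond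
    have hfin := h.base.fin
    rcases Nat.eq_zero_or_pos n with rfl | hn0
    · exact h.conn_one
    have hS3 : 3 ≤ S.card := by omega
    obtain ⟨i, hi, j, hj, k, hk, hli⟩ := hpos.exists_three h.base.fr (by omega) hS3 h.lin
    by_cases h4 : n + 1 = 3 ∧ S.card = 4
    · obtain ⟨hn3, hS4⟩ := h4
      obtain rfl : n = 2 := by omega
      have hspan : Submodule.span F (Set.range ![ℓ k, ℓ j, ℓ i]) ≤ U := by
        rw [Submodule.span_le]
        rintro _ ⟨a, rfl⟩
        fin_cases a
        · exact h.lin k hk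
        · exact h.lin j hj
        · exact h.lin i hi
      obtain ⟨e, he, heV⟩ := hpos.exists_notMem (c := 3) h.base.fr (by omega) (by omega)
        (by omega) (by omega) hspan (by rw [finrank_span_eq_card hli]; simp)
      exact h.conn_three hj he hi hk (by
        have h5 : LinearIndependent F ![ℓ e, ℓ k, ℓ j, ℓ i] :=
          linearIndependent_finCons.2 ⟨hli, heV⟩
        exact h5)
    · -- two pencils
      have hj0 : ℓ j ≠ 0 := hli.ne_zero 1
      have hk0 : ℓ k ≠ 0 := hli.ne_zero 0
      have hij : ℓ i ∉ F ∙ ℓ j := by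
        apply notMem_span_of_indep
        have := hli.comp ![2, 1] (by decide)
        convert! this using 1
        ext i; fin_cases i <;> rfl
      have hik : ℓ i ∉ F ∙ ℓ k := by
        apply notMem_span_of_indep
        have := hli.comp ![2, 0] (by decide)
        convert! this using 1
        ext i; fin_cases i <;> rfl
      have hne : ∀ {a b : ι}, ℓ a ∉ F ∙ ℓ b → a ≠ b := by
        rintro a b hab rfl
        exact hab (Submodule.mem_span_singleton_self _)
      have hcard : ∀ a ∈ S, ∀ b ∈ S, a ≠ b → ((S.erase a).erase b).card + 2 = S.card := by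
        intro a ha b hb hab
        have h1 := Finset.card_erase_add_one ha
        have h2 := Finset.card_erase_add_one (Finset.mem_erase.2 ⟨hab.symm, hb⟩)
        omega
      obtain ⟨m, hm, hD, -, hP⟩ := h.step hi hj hj0 hij
      obtain ⟨m', hm', hD', -, hP'⟩ := h.step hi hk hk0 hik
      obtain rfl : n = m := by omega
      obtain rfl : n = m' := by omega
      have c1 := hcard i hi j hj (hne hij)
      have c2 := hcard i hi k hk (hne hik)
      have hC1 := ih _ _ _ _ _ _ _ hD (hP hpos) hn0 (by omega)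
      have hC2 := ih _ _ _ _ _ _ _ hD' (hP' hpos) hn0 (by omega)
      refine Conn.of_two hC1 hC2 fun a ha1 ha2 => ?_
      refine isAlgebraic_of_two (μ := ℓ i / ℓ k) ?_ ha1 ha2
      -- the second ratio is transcendental over the first
      have hliE := h.base.indep_step (h.lin i hi) (h.lin j hj) hj0 hij (v := ![ℓ k, ℓ i])
        (by
          intro a
          fin_cases a
          · exact h.lin k hk
          · exact h.lin i hi)
        (by
          have := hli.comp ![0, 2] (by decide)
          convert! this using 1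
          ext i; fin_cases i <;> rfl)
        (by
          rintro ⟨-, hh⟩
          have h6 : LinearIndependent F ![ℓ j, ℓ k, ℓ i] := by
            have := hli.comp ![1, 0, 2] (by decide)
            convert! this using 1
            ext i; fin_cases i <;> rfl
          exact (linearIndependent_finCons.1 h6).2 hh)
      obtain ⟨_, -, -, htr⟩ := hD.base.step (mem_ext (h.lin i hi)) (mem_ext (h.lin k hk)) hk0
        (notMem_span_of_indep (by
          have := hliE.comp ![1, 0] (by decide)
          convert! this using 1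
          ext i; fin_cases i <;> rfl))
      exact htr

end

end Pool.Agent.V7H25.HC
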