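import Pool.Agent.V7H25.HC.Ind

set_option autoImplicit false
set_option linter.unusedSectionVars false
set_option linter.unusedVariables false

/-!
# Double covers of projective spaces branched along hyperplanes: from coordinates (helper25)
-/

open Module Cardinal Pointwise

namespace Pool.Agent.V7H25.HC

universe v

section

variable {L K : Type v} [Field L] [Field K] [Algebra L K]

/-- the linear forms in the coordinates `1, x 1, …, x n` -/
noncomputable def form {n : ℕ} (x : Fin n → K) : (Fin (n + 1) → L) →ₗ[L] K where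
  toFun a := algebraMap L K (a 0) + ∑ k, algebraMap L K (a k.succ) * x k
  map_add' a b := by
    simp only [Pi.add_apply, map_add, add_mul, Finset.sum_add_distrib]
    ring
  map_smul' c a := by
    simp only [Pi.smul_apply, smul_eq_mul, map_mul, RingHom.id_apply, Algebra.smul_def, mul_add,
      Finset.mul_sum, mul_assoc]

lemma form_apply {n : ℕ} (x : Fin n → K) (a : Fin (n + 1) → L) :
    form x a = algebraMap L K (a 0) + ∑ k, algebraMap L K (a k.succ) * x k := rfl

lemma form_injective {n : ℕ} {x : Fin n → K} (hx : AlgebraicIndependent L x) :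
    Function.Injective (form (L := L) x) := by
  rw [← LinearMap.ker_eq_bot, LinearMap.ker_eq_bot']
  intro a ha
  have h1 : MvPolynomial.aeval x (MvPolynomial.C (a 0) +
      ∑ k, MvPolynomial.C (a k.succ) * MvPolynomial.X k) = 0 := by
    rw [← ha, form_apply]
    simp [MvPolynomial.algebraMap_eq]
  have h2 := (algebraicIndependent_iff.1 hx) _ h1
  ext k
  refine Fin.cases ?_ (fun i => ?_) k
  · have := congrArg (MvPolynomial.coeff 0) h2
    simpa [MvPolynomial.coeff_sum, MvPolynomial.coeff_C_mul] using this
  · have := congrArg (MvPolynomial.coeff (Finsupp.single i 1)) h2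
    simp only [MvPolynomial.coeff_add, MvPolynomial.coeff_sum, MvPolynomial.coeff_C_mul,
      MvPolynomial.coeff_X, MvPolynomial.coeff_C, MvPolynomial.coeff_zero] at this
    simpa [Finsupp.single_left_inj, eq_comm] using this

lemma one_mem_form {n : ℕ} (x : Fin n → K) : (1 : K) ∈ LinearMap.range (form (L := L) x) :=
  ⟨Pi.single 0 1, by simp [form_apply]⟩

lemma x_mem_form {n : ℕ} (x : Fin n → K) (k : Fin n) :
    x k ∈ LinearMap.range (form (L := L) x) :=
  ⟨Pi.single k.succ 1, by
    rw [form_apply, Finset.sum_eq_single k]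
    · simp
    · intro b _ hb
      rw [Pi.single_eq_of_ne (fun h => hb (Fin.succ_injective _ h))]
      simp
    · simp⟩

lemma pow_le_pow_of_one_mem {U : Submodule L K} (h : (1 : K) ∈ U) {a b : ℕ} (hab : a ≤ b) :
    U ^ a ≤ U ^ b :=
  pow_le_pow_right' (by
    rw [Submodule.one_le]
    exact h) hab

lemma aeval_mem_pow {n d : ℕ} {x : Fin n → K} {U : Submodule L K} (h1 : (1 : K) ∈ U)
    (hx : ∀ k, x k ∈ U) {g : MvPolynomial (Fin n) L} (hg : g.totalDegree ≤ d) :
    MvPolynomial.aeval x g ∈ U ^ d := by
  rw [g.as_sum, map_sum]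
  refine sum_mem fun m hm => ?_
  rw [MvPolynomial.aeval_monomial, ← Algebra.smul_def]
  refine Submodule.smul_mem _ _ ?_
  have h2 : (m.sum fun _ e => e) ≤ d := (MvPolynomial.le_totalDegree hm).trans hg
  refine pow_le_pow_of_one_mem h1 h2 ?_
  rw [Finsupp.prod, Finsupp.sum]
  have h3 : ∀ T : Finset (Fin n), ∏ k ∈ T, x k ^ m k ∈ U ^ (∑ k ∈ T, m k) := by
    intro T
    induction T using Finset.induction_on with
    | empty => simp
    | insert a T ha ih =>
      rw [Finset.prod_insert ha, Finset.sum_insert ha, pow_add]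
      exact Submodule.mul_mem_mul (Submodule.pow_mem_pow _ (hx a) _) ih
  exact h3 _

/-- **From coordinates.** -/
theorem conn_of_coordinates {n r : ℕ} {x : Fin n → K} {w : K} {A : Fin r → Fin (n + 1) → L}
    {g : MvPolynomial (Fin n) L} (hn : 1 ≤ n)
    (hr : n = 1 ∨ 2 * n ≤ r + 1 ∨ 3 ≤ n ∧ 2 * n ≤ r + 2) (hx : AlgebraicIndependent L x)
    (hgen : IntermediateField.adjoin L (Set.range x ∪ {w}) = ⊤)
    (hw : w ^ 2 = (∏ i, form x (A i)) * MvPolynomial.aeval x g)
    (hg : g.totalDegree + r ≤ 2 * n + 2)
    (hpos : ∀ V : Submodule L (Fin (n + 1) → L), 2 ≤ finrank L V → finrank L V ≤ n →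
      Nat.card {i // A i ∈ V} ≤ max (finrank L V) (r + 2 * finrank L V - (2 * n + 1))) :
    Conn L K := by
  classical
  set U : Submodule L K := LinearMap.range (form (L := L) x) with hU
  have hinj := form_injective hx
  have hfr : finrank L U = n + 1 := by
    rw [hU, LinearMap.finrank_range_of_inj hinj]
    simp
  have h1U : (1 : K) ∈ U := one_mem_form x
  have hxU : ∀ k, x k ∈ U := x_mem_form x
  -- the elements of `K` are algebraic over `L(x)`
  have halg : ∀ z : K, IsAlgebraic (IntermediateField.adjoin L (Set.range x)) z := by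
    set E := IntermediateField.adjoin L (Set.range x) with hE
    have hxE : ∀ k, x k ∈ E := fun k => IntermediateField.subset_adjoin _ _ ⟨k, rfl⟩
    have h2 : w ^ 2 ∈ E := by
      rw [hw]
      refine mul_mem (prod_mem fun i _ => ?_) ?_
      · rw [form_apply]
        exact add_mem (IntermediateField.algebraMap_mem _ _) (sum_mem fun k _ =>
          mul_mem (IntermediateField.algebraMap_mem _ _) (hxE k))
      · have h3 : Algebra.adjoin L (Set.range x) ≤ E.toSubalgebra :=
          Algebra.adjoin_le (by rintro _ ⟨k, rfl⟩; exact hxE k)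
        refine h3 ?_
        rw [Algebra.adjoin_range_eq_range_aeval]
        exact ⟨g, rfl⟩
    have h3 : IsAlgebraic E w := by
      refine IsAlgebraic.of_pow (n := 2) (by norm_num) ?_
      exact isAlgebraic_algebraMap (⟨w ^ 2, h2⟩ : E)
    have h4 : IntermediateField.adjoin L (Set.range x ∪ {w}) ≤
        (algebraicClosure E K).restrictScalars L := by
      rw [IntermediateField.adjoin_le_iff]
      rintro z (⟨k, rfl⟩ | rfl)
      · exact mem_algebraicClosure_iff.2 (isAlgebraic_algebraMap (⟨x k, hxE k⟩ : E))
      · exact mem_algebraicClosure_iff.2 h3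
    intro z
    have h5 : z ∈ IntermediateField.adjoin L (Set.range x ∪ {w}) := by rw [hgen]; trivial
    exact mem_algebraicClosure_iff.1 (h4 h5)
  have hrat : ∀ u ∈ U, u ≠ 0 → ∀ k, x k ∈ IntermediateField.adjoin L (rat U u) := by
    intro u hu hu0 k
    have h2 : x k / u ∈ IntermediateField.adjoin L (rat U u) :=
      IntermediateField.subset_adjoin _ _ ⟨x k, hxU k, rfl⟩
    have h3 : 1 / u ∈ IntermediateField.adjoin L (rat U u) :=
      IntermediateField.subset_adjoin _ _ ⟨1, h1U, rfl⟩
    have h4 : x k = (x k / u) / (1 / u) := by field_simp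
    rw [h4]
    exact div_mem h2 h3
  have hbase : Base n U := by
    refine ⟨hfr, ?_, fun u hu hu0 z => ?_⟩
    · have h2 : IsTranscendenceBasis L x := by
        rw [isTranscendenceBasis_iff_algebraicIndependent_isAlgebraic]
        refine ⟨hx, ?_⟩
        exact IntermediateField.isAlgebraic_adjoin_iff_top.1 ⟨halg⟩
      have h3 := h2.lift_cardinalMk_eq_trdeg
      simpa using h3.symm
    · refine isAlgebraic_mono ?_ (halg z)
      rw [IntermediateField.adjoin_le_iff]
      rintro _ ⟨k, rfl⟩
      exact hrat u hu hu0 k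
  have hD : Dat n U (Finset.univ : Finset (Fin r)) (fun i => form x (A i)) (2 * n + 2 - r)
      (MvPolynomial.aeval x g) w := by
    refine ⟨hbase, fun i _ => ⟨A i, rfl⟩, ?_, aeval_mem_pow h1U hxU (by omega), hw, ?_⟩
    · rw [Finset.card_univ, Fintype.card_fin]
      omega
    · intro u hu hu0
      rw [eq_top_iff, ← hgen, IntermediateField.adjoin_le_iff]
      have hle : IntermediateField.adjoin L (rat U u) ≤
          IntermediateField.adjoin L (rat U u ∪ {w / u ^ (n + 1)}) :=
        IntermediateField.adjoin.mono _ _ _ Set.subset_union_left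
      rintro z (⟨k, rfl⟩ | rfl)
      · exact hle (hrat u hu hu0 k)
      · have h2 : z / u ^ (n + 1) ∈ IntermediateField.adjoin L (rat U u ∪ {z / u ^ (n + 1)}) :=
          IntermediateField.subset_adjoin _ _ (Or.inr rfl)
        have h3 : 1 / u ∈ IntermediateField.adjoin L (rat U u ∪ {z / u ^ (n + 1)}) :=
          IntermediateField.subset_adjoin _ _ (Or.inl ⟨1, h1U, rfl⟩)
        have h4 : z = (z / u ^ (n + 1)) / (1 / u) ^ (n + 1) := by
          rw [div_pow, one_pow]
          field_simp
        rw [h4]
        have h5 := div_mem h2 (pow_mem h3 (n + 1))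
        rwa [← h4] at h5 ⊢
  have hP : Pos n U (Finset.univ : Finset (Fin r)) (fun i => form x (A i)) := by
    intro V hV h2 hn
    have h3 : finrank L (V.comap (form x)) = finrank L V := by
      have h4 : (V.comap (form (L := L) x)).map (form x) = V := by
        rw [Submodule.map_comap_eq, inf_eq_right.2 hV]
      conv_rhs => rw [← h4]
      exact (LinearEquiv.finrank_eq (Submodule.equivMapOfInjective _ hinj _))
    have h5 := hpos (V.comap (form x)) (by rw [h3]; exact h2) (by rw [h3]; exact hn)
    rw [h3] at h5
    have h6 : Nat.card {i // A i ∈ V.comap (form x)} =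
        (Finset.univ.filter (fun i => form x (A i) ∈ V)).card := by
      rw [Nat.card_eq_fintype_card, Fintype.card_subtype]
      rfl
    rw [h6] at h5
    rw [Finset.card_univ, Fintype.card_fin]
    exact h5
  refine main n L U _ _ _ _ _ hD hP hn ?_
  rw [Finset.card_univ, Fintype.card_fin]
  exact hr

end

end Pool.Agent.V7H25.HC
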